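import Pool.Agent.Q58.LG.PrsG

/-!
MP_66b48b_ag, Q1: nonvanishing for the projective pairs which correspond in small degree to
subvarieties of generic orbifold pairs.

Let `k` be a subfield of the complex numbers, with algebraic closure `k'` in `ℂ`. Let `V` be a closed
subset of `ℙⁿ`, defined over `k'`, of dimension at most `m`, and let `F_a` be finitely many forms
over `ℂ` of degrees `d_a`, whose coefficients are all together algebraically independent over `k`
(this holds for very general forms, if `k` is countable). For a set `C` of indices let `X₀` be the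
intersection of `V` with the hypersurfaces `F_a = 0`, `a ∈ C`, with the orbifold divisor which has
the coefficient `1 - 1 / q_a` (and `1` if `q_a = 0`; otherwise `q_a` divides `d_a`) on `F_a = 0` for
the other `a`.

Let `(X, Δ)` be a projective pair of dimension `w ≥ 1`: a normal projective variety and an effective
`ℚ`-divisor, log canonical or not. Consider a diagram

  `X ← X₁ ← X' → X₀`

where `X₁ → X` is a finite cover of any degree, whose ramification index `e` over a prime divisor `P`
of `X` with `Δ_P < 1` is at most `1 / (1 - Δ_P)` (so the cover is unramified over `X \ Supp Δ`, in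
codimension one), and `X' ⇢ X₁` is a generically finite rational map of degree `r`, with arbitrary
ramification; the rational map `x : X' ⇢ X₀` is generically finite onto its image, which can be any
subvariety of dimension `w` which is not in a hypersurface `F_a = 0`, `a ∉ C`. Assume that the
function field `E` of `X'` is generated by the coordinates of `x` over the function field `L` of
`X₁`, that `F_a (x)` is a `q_a`-th power in `E` for `a ∉ C`, `q_a ≠ 0`, and that `Δ_P ≥ 1` for the
prime divisors `P` of `X` under some divisor of `X'` whose image is in `F_a = 0`, `a ∉ C`, `q_a = 0`.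

(1) If `2 m + r + ∑_{a ∉ C} d_a / q_a ≤ ∑ d_a + |C| + w` (where `d / 0 = 0`), then `R (K_X + Δ)` has a
nonzero section for some `R ≥ 1`. So `K_X + Δ` is `ℚ`-linearly equivalent to an effective divisor,
and the answer to Q1 is yes for the pair `(X, Δ)`.

(2) If `2 m + 2 r + ∑_{a ∉ C} d_a / q_a ≤ ∑ d_a + |C| + w`, then `K_X + Δ` is big: the ratios of some
sections of `R (K_X + Δ)` are a transcendence basis of the function field of `X`.

The case `X = X₁ = X'` are the pairs on (models of) the subvarieties of `X₀`; if `X` and `X'` differ,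
then the pair `(X, Δ)` has in general no maps to `X₀`, and the varieties `X` may be rational.

The language of `Pool.Agent.Y172` is used: `X` is given by the homogeneous coordinates `y` of its
generic point, with values in the function field `K` of `X`; the prime divisors of `X` are places `P`
of `K`, `P.ord` is the order along `P` (`NormalModel`, `IsPrimeDivisor`, `Effective` and `IsSection`
are in `Pool/Agent/Y172/Defs.lean`). `Over Q P e` (`Pool/Agent/Helper386/D5V/Helper399_OverDefs.lean`): the place `Q` lies over `P`,
with ramification index `e`. `DimLE` is in `Pool/Agent/TH145/MG/Dim.lean`. `pord Q x`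
(`Pool/Agent/W603/PV/Hgt.lean`) is the least order of the coordinates `x j` at `Q`, so the image of
`Q` is in `F_a = 0` iff `d_a * pord Q x < Q.ord (F_a (x))`.

Proof: the canonical forms of a generic pair (`Pool/Agent/Q58/LG/LForm.lean`, by differentiation with
respect to the coefficients of the `F_a`) are pulled back to `X'`; they separate `r` points, so that
some trace to `X₁` is not zero; the traces are logarithmic over `Δ ≥ 1` and regular elsewhere; they
descend to sections of `R (K_X + Δ)` by elementary symmetric functions of the conjugates.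
-/

set_option autoImplicit false

namespace Pool.Agent.Results.MP_66b48b_ag.CorrespondingPairs

open MvPolynomial FF
open Pool.Agent.TH145.MG (DimLE)
open Pool.Agent.W603.PV (pord)
open Pool.Agent.W603.LV
open Pool.Agent.Y172 (NormalModel Effective IsPrimeDivisor IsSection)

theorem result {k : Type} [Field k] [Algebra k ℂ] {n m w M : ℕ}
    -- forms of degrees `d a`, whose coefficients are algebraically independent over `k`
    {A : Type} [Fintype A] [DecidableEq A] (d : A → ℕ)
    (F : A → MvPolynomial (Fin (n + 1)) ℂ) (hF : ∀ a, (F a).IsHomogeneous (d a))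
    (hgen : AlgebraicIndependent k
      fun p : (a : A) × {I : Fin (n + 1) →₀ ℕ // I.degree = d a} => (F p.1).coeff p.2.1)
    -- a closed set `V` of dimension at most `m`
    (V : Set (MvPolynomial (Fin (n + 1)) (algebraicClosure k ℂ)))
    (hVh : ∀ f ∈ V, ∃ e, f.IsHomogeneous e) (hV : DimLE (algebraicClosure k ℂ) V m)
    -- the equations of `X₀` and the multiplicities
    (C : Finset A) (q : A → ℕ) (hq : ∀ a, a ∉ C → q a ∣ d a ∨ q a = 0)
    -- the function fields of `X`, `X₁` and `X'`
    {K L E : Type} [Field K] [Field L] [Field E] [Algebra ℂ K] [Algebra ℂ L] [Algebra ℂ E]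
    [Algebra K L] [IsScalarTower ℂ K L] [FiniteDimensional K L]
    [Algebra L E] [IsScalarTower ℂ L E] [FiniteDimensional L E]
    -- the pair `(X, Δ)`
    (y : Fin (M + 1) → K) (hy : NormalModel y) (hw : 1 ≤ w) (hK : Algebra.trdeg ℂ K = w)
    (Δ : Place ℂ K → ℚ) (hΔ : Effective y Δ)
    -- the ramification of `X₁ → X`
    (had : ∀ (P : Place ℂ K) (Q : Place ℂ L) (e : ℕ), IsPrimeDivisor y P → Over Q P e → Δ P < 1 →
      (e : ℚ) * (1 - Δ P) ≤ 1)
    -- the rational map from `X'` to `X₀`
    (x : Fin (n + 1) → E) (j0 : Fin (n + 1)) (hx1 : x j0 = 1)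
    (hgenL : IntermediateField.adjoin L (Set.range x) = ⊤)
    (halg : Algebra.IsAlgebraic (IntermediateField.adjoin ℂ (Set.range x)) E)
    (hxV : ∀ f ∈ V, aeval x (map (algebraMap (algebraicClosure k ℂ) ℂ) f) = 0)
    (hxC : ∀ a ∈ C, aeval x (F a) = 0) (hxn : ∀ a, a ∉ C → aeval x (F a) ≠ 0)
    (hxq : ∀ a, a ∉ C → q a ≠ 0 → ∃ η : E, aeval x (F a) = η ^ q a)
    -- `Δ_P ≥ 1` under the divisors of `X'` with image in `F_a = 0`, `q_a = 0`
    (hB : ∀ (P : Place ℂ K) (Q₁ : Place ℂ L) (Q : Place ℂ E) (e e₁ : ℕ), IsPrimeDivisor y P →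
      Over Q₁ P e → Over Q Q₁ e₁ →
      (∃ a, a ∉ C ∧ q a = 0 ∧ d a * pord Q x < Q.ord (aeval x (F a))) → 1 ≤ Δ P) :
    (2 * m + Module.finrank L E + ∑ a ∈ Cᶜ, d a / q a ≤ ∑ a, d a + C.card + w →
      ∃ R : ℕ, 1 ≤ R ∧ ∃ ω, IsSection y w R (R • Δ) ω ∧ ω ≠ 0) ∧
    (2 * m + 2 * Module.finrank L E + ∑ a ∈ Cᶜ, d a / q a ≤ ∑ a, d a + C.card + w →
      ∃ R : ℕ, 1 ≤ R ∧ ∃ ω : Fin (w + 1) → (Fin w → Derivation ℂ K K) → K,
        (∀ j, IsSection y w R (R • Δ) (ω j)) ∧ ∃ G, ω 0 G ≠ 0 ∧
          AlgebraicIndependent ℂ fun i : Fin w => ω i.succ G / ω 0 G) := by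
  have h1 : 1 ≤ Module.finrank L E := Module.finrank_pos
  have hS : ∀ S : Finset A, (∀ a, a ∈ S ↔ a ∉ C) → S = Cᶜ := fun S hS => by
    ext a
    rw [hS, Finset.mem_compl]
  constructor
  · intro hd
    exact (Pool.Agent.Q58.LG.pair_gen (N := Module.finrank L E - 1) hVh hV hF
      hgen.algebraicClosure hw C hq (fun S h => by rw [hS S h]; omega) hy hK hΔ had hx1 hgenL halg
      hxV hxC hxn hxq hB).1 (by omega)
  · intro hd
    exact (Pool.Agent.Q58.LG.pair_gen (N := 2 * Module.finrank L E - 1) hVh hV hF
      hgen.algebraicClosure hw C hq (fun S h => by rw [hS S h]; omega) hy hK hΔ had hx1 hgenL halg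
      hxV hxC hxn hxq hB).2 (by omega)

end Pool.Agent.Results.MP_66b48b_ag.CorrespondingPairs
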