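import Pool.Agent.H172.LG.Fin

/-!
# Non-vanishing for toroidal log canonical pairs with real coefficients

Let `F i`, `i = 1, ..., r`, be a form of degree `d i` in `n i + 1` variables whose zero set `H i` in the
projective `n i`-space is a smooth hypersurface, and let `K` be the function field of an abelian cover of
the product `Y` of these projective spaces which is branched only along the hypersurfaces `H i`: the field
`K` is generated by the affine coordinates `x i j / x i 0` of `Y` and by roots `z j`,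
`z j ^ (m j) = ∏ i, (F i (x i) / x i 0 ^ (d i)) ^ (a j i)`, where `m j` divides `a j i * d i`.

The `Multiplicities` of a prime divisor `P` over `Y` (a divisorial place of `K`) are the orders `v i`
along `P` of the pullbacks of the divisors `H i`. The divisor `P` is a log place of the pair
`(Y, H 1 + ... + H r)` if its log discrepancy is zero: the order of the canonical form of `Y` along `P` is
less than the order of the pullback of `H 1 + ... + H r`. The vectors of multiplicities of the log places
are `Primitive` elements of the cone of the `Admissible` vectors: those `v ≠ 0` of nonnegative integers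
with `m j ∣ ∑ i, a j i * v i` for all `j`.

Let `(X, Δ)` be a toroidal pair: `X` is a normal projective variety with function field `K` whose prime
divisors over the hypersurfaces `H i` are the log places with multiplicities in a finite set `rays`, and
`Δ` is the sum of `δ v` times the sum of the prime divisors of `X` with multiplicities `v ∈ rays`, with
real `δ v ≤ 1` (so `(X, Δ)` is log canonical if `K_X + Δ` is `ℝ`-Cartier and `Δ ≥ 0`). We put `δ v = 1`
for all other `v`: along the log places which are not on `X` all sections of `m (K_X + Δ)` have a pole of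
order at most `m`.

The theorem: (1) `K_X + Δ` is pseudo-effective if and only if
`∑ i, (1 - (n i + 1) / d i) * v i ≥ 1 - δ v` for all primitive `v`.

(2) `K_X + Δ` is pseudo-effective if and only if it is `ℝ`-linearly equivalent to an effective divisor.

(3) Let `B` be a bound for the `d i`, for the entries of the `rays` and for a common multiple `L` of the
`m j`, let `D ≥ 1` be divisible by all integers between `1` and `r! * B ^ r`, and let `q ≥ 1` be divisible
by all `d i`. If `K_X + Δ` is pseudo-effective then the rounded down multiple `⌊q D (K_X + Δ)⌋` has a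
nonzero section. The number `q D` does not depend on the coefficients of `Δ`.

Sections of `⌊m (K_X + Δ)⌋ + j A` are functions of `N = dim X` rational vector fields, with a condition at
the divisorial places of `K` with centre not in the hypersurfaces `H i` (`v = 0`, where `X` is smooth and
`Δ` is zero) and at the log places.
-/

set_option autoImplicit false

open FF MvPolynomial Pool.Agent.W602.GT

namespace Pool.Agent.Results.MP_66b48b_ag.RealToroidalPairs

/-- The form `F` has no singular zeros: its partial derivatives have no common zero but `0`. -/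
def Smooth {n : ℕ} (F : MvPolynomial (Fin (n + 1)) ℂ) : Prop :=
  ∀ x : Fin (n + 1) → ℂ, x ≠ 0 → ∃ l, eval x (pderiv l F) ≠ 0

section

variable {r R : ℕ}

/-- The vectors which satisfy the divisibility conditions. -/
def Admissible (m : Fin R → ℕ) (a : Fin R → Fin r → ℕ) (v : Fin r → ℕ) : Prop :=
  v ≠ 0 ∧ ∀ j, m j ∣ ∑ i, a j i * v i

/-- The admissible vectors which are not proper multiples of admissible vectors. -/
def Primitive (m : Fin R → ℕ) (a : Fin R → Fin r → ℕ) (v : Fin r → ℕ) : Prop :=
  Admissible m a v ∧ ∀ (k : ℕ) (u : Fin r → ℕ), Admissible m a u → (∀ i, v i = k * u i) → k = 1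

/-- The weight `∑ i, (1 - (n i + 1) / d i) * v i`. -/
noncomputable def weight (n d v : Fin r → ℕ) : ℝ := ∑ i, (1 - ((n i : ℝ) + 1) / d i) * v i

end

section cover

variable {r : ℕ} {n : Fin r → ℕ} {N : ℕ} {K : Type} [Field K] [Algebra ℂ K]

/-- The affine coordinates of the product of the projective spaces. -/
noncomputable def affine (x : ∀ i, Fin (n i + 1) → K) (b : (i : Fin r) × Fin (n i)) : K :=
  x b.1 b.2.succ / x b.1 0

/-- The canonical form of the product of the projective spaces (which has the weight `n i + 1` in the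
homogeneous coordinates `x i`), at the vector fields `D`. -/
noncomputable def canonicalForm (e : ((i : Fin r) × Fin (n i)) ≃ Fin N)
    (x : ∀ i, Fin (n i + 1) → K) (D : Fin N → Derivation ℂ K K) : K :=
  (∏ i, x i 0 ^ (n i + 1)) * (Matrix.of fun a b : Fin N => D a (affine x (e.symm b))).det

/-- `α i` is the least order of the homogeneous coordinates `x i` at `P`, and `v i` is the order of
the pullback of the hypersurface `F i = 0`. -/
def Multiplicities (x : ∀ i, Fin (n i + 1) → K) (F : ∀ i, MvPolynomial (Fin (n i + 1)) ℂ)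
    (d : Fin r → ℕ) (P : Place ℂ K) (α : Fin r → ℤ) (v : Fin r → ℕ) : Prop :=
  (∀ i l, α i ≤ P.ord (x i l)) ∧ (∀ i, ∃ l, P.ord (x i l) = α i) ∧
    ∀ i, P.ord (aeval (x i) (F i)) = d i * α i + v i

/-- The log discrepancy of `P` for the pair of the product of the projective spaces and the sum of
the hypersurfaces is zero: at some vector fields which are regular at `P` the order of the canonical
form is less than the order of the pullback of the sum of the hypersurfaces. -/
def LogPlace (e : ((i : Fin r) × Fin (n i)) ≃ Fin N) (x : ∀ i, Fin (n i + 1) → K)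
    (F : ∀ i, MvPolynomial (Fin (n i + 1)) ℂ) (d : Fin r → ℕ) (P : Place ℂ K) : Prop :=
  ∃ α v, Multiplicities x F d P α v ∧ ∃ D : Fin N → Derivation ℂ K K, (∀ c, DerReg P (D c)) ∧
    canonicalForm e x D ≠ 0 ∧
    P.ord (canonicalForm e x D) < ∑ i, ((n i : ℤ) + 1) * α i + ∑ i, (v i : ℤ)

variable (e : ((i : Fin r) × Fin (n i)) ≃ Fin N) (x : ∀ i, Fin (n i + 1) → K)
  (F : ∀ i, MvPolynomial (Fin (n i + 1)) ℂ) (d : Fin r → ℕ) (δ : (Fin r → ℕ) → ℝ)

open Classical in
/-- `ω` is a section of `⌊m (K_X + Δ)⌋ + j A`: a rational section of the `m`-th power of the canonical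
bundle (`IsPluri`: a function of `N` rational vector fields which is multiplied by `det B ^ m` under
a linear substitution `B`) whose order on the vector fields which are regular at `P` is at least `j`
times the order of one of the functions in `S` minus `m` times the coefficient of `Δ`, for all
divisorial places `P` of `K` with multiplicities `v = 0` (coefficient zero) and for all log places with
multiplicities `v` (coefficient `δ v`). Here `A` is the divisor which is generated by the finite set
`S` of functions; `A = 0` if `S = {1}`. -/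
def IsSection (S : Finset K) (m j : ℕ) (ω : (Fin N → Derivation ℂ K K) → K) : Prop :=
  IsPluri m ω ∧ ∀ P : Place ℂ K, Divisorial N P → ∀ α v, Multiplicities x F d P α v →
    (v = 0 ∨ LogPlace e x F d P) → ∀ D : Fin N → Derivation ℂ K K, (∀ c, DerReg P (D c)) →
      ω D = 0 ∨ ∃ s ∈ S, s ≠ 0 ∧
        (j * P.ord s : ℝ) - (if v = 0 then 0 else m * δ v) ≤ P.ord (ω D)

/-- `K_X + Δ` is pseudo-effective: there is a divisor `A` such that for all `M` a positive multiple of
`M (K_X + Δ) + A` is effective. -/
def Pseudoeffective : Prop :=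
  ∃ S : Finset K, ∀ M : ℕ, ∃ j : ℕ, 1 ≤ j ∧ ∃ ω : (Fin N → Derivation ℂ K K) → K, ω ≠ 0 ∧
    IsSection e x F d δ S (j * M) j ω

open Classical in
/-- `K_X + Δ` is `ℝ`-linearly equivalent to an effective divisor: there are `E ≥ 1`, a rational section
`ω ≠ 0` of `E K_X`, functions `f i ≠ 0` and real numbers `c i` such that the divisor
`div ω + E Δ + ∑ i, c i * div (f i)` is effective. -/
def REffective : Prop :=
  ∃ (E k : ℕ) (ω : (Fin N → Derivation ℂ K K) → K) (f : Fin k → K) (c : Fin k → ℝ),
    1 ≤ E ∧ ω ≠ 0 ∧ IsPluri E ω ∧ (∀ i, f i ≠ 0) ∧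
    ∀ P : Place ℂ K, Divisorial N P → ∀ α v, Multiplicities x F d P α v →
      (v = 0 ∨ LogPlace e x F d P) → ∀ D : Fin N → Derivation ℂ K K, (∀ b, DerReg P (D b)) →
        ω D = 0 ∨ 0 ≤ P.ord (ω D) + (if v = 0 then 0 else E * δ v) + ∑ i, c i * P.ord (f i)

end cover

theorem weight_eq {r : ℕ} {n d : Fin r → ℕ} (hd : ∀ i, 1 ≤ d i) (v : Fin r → ℕ) :
    weight n d v = ∑ i, (((d i : ℝ) - n i - 1) / d i) * v i := by
  unfold weight
  refine Finset.sum_congr rfl fun i _ => ?_
  have h1 : (d i : ℝ) ≠ 0 := by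
    have := hd i
    exact_mod_cast (by omega : d i ≠ 0)
  congr 1
  field_simp
  ring

section aux

variable {r : ℕ} {n : Fin r → ℕ} {N : ℕ} {K : Type} [Field K] [Algebra ℂ K]
  {e : ((i : Fin r) × Fin (n i)) ≃ Fin (N + 1)} {x : ∀ i, Fin (n i + 1) → K}
  {F : ∀ i, MvPolynomial (Fin (n i + 1)) ℂ} {d : Fin r → ℕ}

theorem log_iff {P : Place ℂ K} :
    LogPlace e x F d P ↔ Pool.Agent.H172.LG.Lg e x F d P :=
  ⟨fun ⟨α, v, h, h'⟩ => ⟨α, v, ⟨h.1, h.2.1, h.2.2⟩, h'⟩,
    fun ⟨α, v, h, h'⟩ => ⟨α, v, ⟨h.h1, h.h2, h.h3⟩, h'⟩⟩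

theorem section_iff {δ : (Fin r → ℕ) → ℝ}
    {S : Finset K} {m j : ℕ} {ω : (Fin (N + 1) → Derivation ℂ K K) → K} :
    IsSection e x F d δ S m j ω ↔ Pool.Agent.H172.LG.LSec e x F d δ S m j ω := by
  unfold IsSection Pool.Agent.H172.LG.LSec
  refine and_congr Iff.rfl ?_
  constructor
  · intro h P hd α v hmu hP D hD
    exact h P hd α v ⟨hmu.h1, hmu.h2, hmu.h3⟩ (hP.imp id log_iff.2) D hD
  · intro h P hd α v hmu hP D hD
    exact h P hd α v ⟨hmu.1, hmu.2.1, hmu.2.2⟩ (hP.imp id log_iff.1) D hD

theorem exists_min (P : Place ℂ K) (f : K) :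
    ∃ g : Fin 3, P.ord (![1, f, f⁻¹] g) = -|P.ord f| := by
  rcases le_total 0 (P.ord f) with h | h
  · refine ⟨2, ?_⟩
    rw [abs_of_nonneg h]
    exact P.ord_inv f
  · refine ⟨1, ?_⟩
    rw [abs_of_nonpos h, neg_neg]
    rfl

/-- `ℝ`-linearly effective divisors are pseudo-effective. -/
theorem psef_of_reff {δ : (Fin r → ℕ) → ℝ} (h : REffective e x F d δ) :
    Pseudoeffective e x F d δ := by
  classical
  obtain ⟨E, k, ω, f, c, hE, hω0, hω1, hf, hω⟩ := h
  let T : (Fin k → Fin 3) → K := fun g => ∏ i, ![1, f i, (f i)⁻¹] (g i)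
  refine ⟨Finset.univ.image T, fun M => ⟨E, hE, fun D => ω D ^ M * ∏ i, f i ^ ⌊M * c i⌋,
    ?_, ?_, ?_⟩⟩
  · intro h0
    apply hω0
    funext D
    by_contra hne
    have h1 := congrFun h0 D
    dsimp only [Pi.zero_apply] at h1
    rcases mul_eq_zero.1 h1 with h2 | h2
    · exact pow_ne_zero M hne h2
    · exact Finset.prod_ne_zero_iff.2 (fun i _ => zpow_ne_zero _ (hf i)) h2
  · intro A D
    have h1 := hω1 A D
    dsimp only
    rw [h1, mul_pow, ← pow_mul]
    ring
  · intro P hP α v hmu hlog D hD
    by_cases hcase : ω D = 0 ∧ M ≠ 0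
    · left
      dsimp only
      rw [hcase.1, zero_pow hcase.2, zero_mul]
    · right
      choose g hg using fun i => exists_min P (f i)
      have h3 : ∀ i, (![1, f i, (f i)⁻¹] (g i) : K) ≠ 0 := by
        intro i
        have h3 := hf i
        generalize g i = b
        fin_cases b
        · exact one_ne_zero
        · exact h3
        · exact inv_ne_zero h3
      have h4 : T g ≠ 0 := Finset.prod_ne_zero_iff.2 fun i _ => h3 i
      have h5 : P.ord (T g) = ∑ i, -|P.ord (f i)| := by
        rw [show T g = ∏ i, ![1, f i, (f i)⁻¹] (g i) from rfl,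
          Pool.Agent.W602.GT.ord_prod' P _ _ fun i _ => h3 i]
        exact Finset.sum_congr rfl fun i _ => hg i
      refine ⟨T g, Finset.mem_image_of_mem _ (Finset.mem_univ _), h4, ?_⟩
      have h6 : P.ord (ω D ^ M * ∏ i, f i ^ ⌊M * c i⌋) =
          M * P.ord (ω D) + ∑ i, ⌊M * c i⌋ * P.ord (f i) := by
        rw [P.ord_mul, P.ord_pow, Pool.Agent.W602.GT.ord_prod' P _ _ fun i _ =>
          zpow_ne_zero _ (hf i)]
        · congr 1
          exact Finset.sum_congr rfl fun i _ => P.ord_zpow _ _
        · intro h0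
          refine hcase ⟨by_contra fun h7 => pow_ne_zero M h7 h0, ?_⟩
          rintro rfl
          rw [pow_zero] at h0
          exact one_ne_zero h0
        · exact Finset.prod_ne_zero_iff.2 fun i _ => zpow_ne_zero _ (hf i)
      dsimp only
      rw [h6, h5]
      push_cast
      have h7 : (0 : ℝ) ≤ M * P.ord (ω D) + M * (if v = 0 then 0 else E * δ v) +
          ∑ i, M * c i * P.ord (f i) := by
        by_cases hM : M = 0
        · subst hM
          simp
        · rcases hω P hP α v hmu hlog D hD with h8 | h8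
          · exact absurd ⟨h8, hM⟩ hcase
          · have h9 := mul_nonneg (show (0 : ℝ) ≤ M by positivity) h8
            rw [mul_add, mul_add, Finset.mul_sum] at h9
            refine h9.trans (le_of_eq ?_)
            congr 1
            exact Finset.sum_congr rfl fun i _ => by ring
      have h8 : ∑ i, (M * c i * P.ord (f i) : ℝ) ≤
          ∑ i, ((⌊M * c i⌋ : ℝ) * P.ord (f i) + |(P.ord (f i) : ℝ)|) := by
        refine Finset.sum_le_sum fun i _ => ?_
        have h9 : (M * c i - ⌊M * c i⌋ : ℝ) * P.ord (f i) ≤ |(P.ord (f i) : ℝ)| := by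
          have h10 : (0 : ℝ) ≤ M * c i - ⌊M * c i⌋ := by
            have := Int.floor_le (M * c i : ℝ)
            linarith
          have h11 : (M * c i - ⌊M * c i⌋ : ℝ) ≤ 1 := by
            have := (Int.lt_floor_add_one (M * c i : ℝ)).le
            linarith
          calc (M * c i - ⌊M * c i⌋ : ℝ) * P.ord (f i)
              ≤ (M * c i - ⌊M * c i⌋ : ℝ) * |(P.ord (f i) : ℝ)| :=
                mul_le_mul_of_nonneg_left (le_abs_self _) h10
            _ ≤ 1 * |(P.ord (f i) : ℝ)| := mul_le_mul_of_nonneg_right h11 (abs_nonneg _)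
            _ = |(P.ord (f i) : ℝ)| := one_mul _
        linarith
      rw [Finset.sum_add_distrib] at h8
      have h9 : ∑ i, |(P.ord (f i) : ℝ)| ≤ E * ∑ i, |(P.ord (f i) : ℝ)| := by
        have h10 : (0 : ℝ) ≤ ∑ i, |(P.ord (f i) : ℝ)| :=
          Finset.sum_nonneg fun i _ => abs_nonneg _
        have h11 : (1 : ℝ) ≤ E := by exact_mod_cast hE
        nlinarith
      rw [Finset.sum_neg_distrib, mul_neg]
      split_ifs at h7 ⊢ with hv
      · linarith
      · have h10 : (M : ℝ) * (E * δ v) = E * M * δ v := by ring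
        linarith

end aux

/-- **Non-vanishing for toroidal pairs with real coefficients.** Let `K` be the function field of an
abelian cover of the product of the projective `n i`-spaces which is branched along smooth hypersurfaces
`F i = 0` of the factors, and let `(X, Δ)` be a toroidal pair with function field `K`: the prime divisors
of `X` over the hypersurfaces are the log places with multiplicities in the finite set `rays` of primitive
vectors, and they have the real coefficients `δ v ≤ 1` in `Δ` (and `δ v = 1` for `v ∉ rays`).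
(1) `K_X + Δ` is pseudo-effective if and only if `weight n d v ≥ 1 - δ v` for all primitive `v`.
(2) `K_X + Δ` is pseudo-effective if and only if it is `ℝ`-linearly equivalent to an effective divisor.
(3) Let `B ≥ d i` for all `i`, `B ≥ v i` for all `v ∈ rays`, let `L ≤ B` be a common multiple of the
`m j`, let `D ≥ 1` be divisible by all integers between `1` and `r! * B ^ r`, and let `q ≥ 1` be divisible
by all `d i`. If `K_X + Δ` is pseudo-effective then `⌊q D (K_X + Δ)⌋` has a nonzero section. -/
theorem result (r N R : ℕ) (n d : Fin r → ℕ) (hr : 1 ≤ r) (hn : ∀ i, 1 ≤ n i)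
    (hd : ∀ i, 1 ≤ d i) (e : ((i : Fin r) × Fin (n i)) ≃ Fin N)
    (F : ∀ i, MvPolynomial (Fin (n i + 1)) ℂ) (hF : ∀ i, (F i).IsHomogeneous (d i))
    (hs : ∀ i, Smooth (F i)) (m : Fin R → ℕ) (hm : ∀ j, 1 ≤ m j) (a : Fin R → Fin r → ℕ)
    (hdiv : ∀ j i, m j ∣ a j i * d i)
    (K : Type) [Field K] [Algebra ℂ K] (x : ∀ i, Fin (n i + 1) → K) (hx0 : ∀ i, x i 0 ≠ 0)
    (hbas : IsTranscendenceBasis ℂ (affine x)) (z : Fin R → K)
    (hz : ∀ j, z j ^ m j = ∏ i, (aeval (x i) (F i) / x i 0 ^ d i) ^ a j i)
    (hgen : IntermediateField.adjoin ℂ (Set.range (affine x) ∪ Set.range z) = ⊤)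
    (rays : Finset (Fin r → ℕ)) (hrays : ∀ v ∈ rays, Primitive m a v)
    (δ : (Fin r → ℕ) → ℝ) (hδ : ∀ v, δ v ≤ 1) (hoff : ∀ v, v ∉ rays → δ v = 1) :
    (Pseudoeffective e x F d δ ↔ ∀ v, Primitive m a v → 1 - δ v ≤ weight n d v) ∧
    (Pseudoeffective e x F d δ ↔ REffective e x F d δ) ∧
    ∀ B L D q : ℕ, (∀ i, d i ≤ B) → (∀ v ∈ rays, ∀ i, v i ≤ B) → 1 ≤ L → L ≤ B →
      (∀ j, m j ∣ L) → 1 ≤ D → (∀ i : ℕ, 1 ≤ i → i ≤ r.factorial * B ^ r → i ∣ D) → 1 ≤ q →
      (∀ i, d i ∣ q) → Pseudoeffective e x F d δ →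
      ∃ ω : (Fin N → Derivation ℂ K K) → K, ω ≠ 0 ∧ IsSection e x F d δ {1} (q * D) 1 ω := by
  classical
  obtain ⟨N', rfl⟩ : ∃ N', N = N' + 1 := by
    have h1 := (e ⟨⟨0, hr⟩, ⟨0, hn _⟩⟩).pos
    exact ⟨N - 1, by omega⟩
  have hbas' : IsTranscendenceBasis ℂ (Pool.Agent.TH756.PR.uu e x) :=
    Pool.Agent.TH756.PR.basis_uu e hbas
  have hrange : Set.range (Pool.Agent.TH756.PR.uu e x) = Set.range (affine x) := by
    ext z
    constructor
    · rintro ⟨b, rfl⟩
      exact ⟨e.symm b, rfl⟩
    · rintro ⟨a, rfl⟩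
      refine ⟨e a, ?_⟩
      change Pool.Agent.TH756.PR.aff x (e.symm (e a)) = _
      rw [e.symm_apply_apply]
      rfl
  have hgen' : IntermediateField.adjoin ℂ (Set.range (Pool.Agent.TH756.PR.uu e x) ∪
      Set.range z) = ⊤ := by
    rw [hrange]
    exact hgen
  have hineq : Pseudoeffective e x F d δ → ∀ v, Primitive m a v → 1 - δ v ≤ weight n d v := by
    rintro ⟨S, hS⟩ v hv
    rw [weight_eq hd]
    exact Pool.Agent.H172.LG.psef_main (e := e) hn hx0 hbas' hd hs hF hm hz hdiv hgen'
      hδ hv ⟨S, fun M => by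
        obtain ⟨j, hj, ω, hω0, hω⟩ := hS M
        exact ⟨j, hj, ω, hω0, section_iff.1 hω⟩⟩
  -- the sections
  have hsec : (∀ v, Primitive m a v → 1 - δ v ≤ weight n d v) → ∀ B L D q : ℕ, (∀ i, d i ≤ B) →
      (∀ v ∈ rays, ∀ i, v i ≤ B) → 1 ≤ L → L ≤ B →
      (∀ j, m j ∣ L) → 1 ≤ D → (∀ i : ℕ, 1 ≤ i → i ≤ r.factorial * B ^ r → i ∣ D) → 1 ≤ q →
      (∀ i, d i ∣ q) →
      ∃ ω : (Fin (N' + 1) → Derivation ℂ K K) → K, ω ≠ 0 ∧
        IsSection e x F d δ {1} (q * D) 1 ω := by
    intro hw B L D q hB1 hB2 hL hLB hmL hD hDd hq0 hq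
    -- the smallest coefficients
    let W : (Fin r → ℕ) → ℚ := fun v => ∑ i, (((d i : ℚ) - n i - 1) / d i) * v i
    have hW : ∀ v, ((W v : ℚ) : ℝ) = weight n d v := fun v => by
      rw [weight_eq hd]
      push_cast [W]
      rfl
    let δ0 : (Fin r → ℕ) → ℚ := fun v => if v ∈ rays then 1 - W v else 1
    have h0 : ∀ v, (δ0 v : ℝ) ≤ δ v := by
      intro v
      by_cases hv : v ∈ rays
      · have h1 := hw v (hrays v hv)
        have h2 : (δ0 v : ℝ) = 1 - weight n d v := by
          rw [← hW]
          simp only [δ0, if_pos hv]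
          push_cast
          rfl
        linarith
      · simp only [δ0, if_neg hv]
        rw [hoff v hv]
        norm_num
    have hWnn : ∀ v, Primitive m a v → 0 ≤ W v := by
      intro v hv
      have h1 := hw v hv
      have h2 := hδ v
      have h3 : (0 : ℝ) ≤ ((W v : ℚ) : ℝ) := by
        rw [hW]
        linarith
      exact_mod_cast h3
    obtain ⟨k, s, hk, ⟨D0, hs0⟩, hs1, -⟩ := Pool.Agent.H172.LG.asym_main (e := e) (δ := δ0) hn hx0
      hbas' hd hs hF hm hz hdiv hgen' (fun v => by
        by_cases hv : v ∈ rays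
        · simp only [δ0, if_pos hv]
          linarith [hWnn v (hrays v hv)]
        · simp only [δ0, if_neg hv]
          exact le_refl _) hrays (fun v hv => by simp only [δ0, if_neg hv])
      hB1 hB2 hL hLB hmL hD hDd hq0 (fun v hv => by
        simp only [δ0, if_pos hv, W]
        have h1 : ∀ i, ∃ t : ℤ, (q : ℚ) * ((((d i : ℚ) - n i - 1) / d i) * v i) = t := by
          intro i
          obtain ⟨c, hc⟩ := hq i
          refine ⟨c * (d i - n i - 1) * v i, ?_⟩
          have h2 : (d i : ℚ) ≠ 0 := by
            have := hd i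
            exact_mod_cast (by omega : d i ≠ 0)
          rw [hc]
          push_cast
          field_simp
        choose t ht using h1
        refine ⟨q - ∑ i, t i, ?_⟩
        rw [mul_sub, Finset.mul_sum, Finset.sum_congr rfl fun i _ => ht i]
        push_cast
        ring) (fun v hv => by
        by_cases hvr : v ∈ rays
        · simp only [δ0, if_pos hvr, W]
          linarith
        · simp only [δ0, if_neg hvr]
          have := hWnn v hv
          simp only [W] at this
          linarith)
    refine ⟨s ⟨0, hk⟩, fun h1 => hs0 ⟨0, hk⟩ (by rw [h1]; rfl), ?_⟩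
    obtain ⟨h1, h2⟩ := section_iff.2 (hs1 ⟨0, hk⟩ 1)
    refine ⟨h1, fun P hP α v hmu hlog Dv hDv => ?_⟩
    refine (h2 P hP α v hmu hlog Dv hDv).imp id ?_
    rintro ⟨t, ht, ht0, hle⟩
    refine ⟨t, ht, ht0, le_trans ?_ hle⟩
    split_ifs
    · exact le_refl _
    · have h3 := mul_le_mul_of_nonneg_left (h0 v) (show (0 : ℝ) ≤ (q * D : ℕ) by positivity)
      linarith
  -- the constants
  have hreff : (∀ v, Primitive m a v → 1 - δ v ≤ weight n d v) → REffective e x F d δ := by
    intro hw
    obtain ⟨L, hLdef⟩ : ∃ L, L = ∏ j, m j := ⟨_, rfl⟩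
    have hL : 1 ≤ L := by
      rw [hLdef]
      have h1 : 0 < ∏ j, m j := Finset.prod_pos fun j _ => hm j
      omega
    obtain ⟨B, hBdef⟩ : ∃ B, B = L + ∑ i, d i + ∑ v ∈ rays, ∑ i, v i := ⟨_, rfl⟩
    have hB1 : ∀ i, d i ≤ B := fun i => by
      have h1 : d i ≤ ∑ i, d i := Finset.single_le_sum (fun _ _ => Nat.zero_le _) (Finset.mem_univ i)
      omega
    have hB2 : ∀ v ∈ rays, ∀ i, v i ≤ B := fun v hv i => by
      have h1 : v i ≤ ∑ i, v i := Finset.single_le_sum (fun _ _ => Nat.zero_le _) (Finset.mem_univ i)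
      have h2 : ∑ i, v i ≤ ∑ v ∈ rays, ∑ i, v i :=
        Finset.single_le_sum (f := fun v : Fin r → ℕ => ∑ i, v i) (fun _ _ => Nat.zero_le _) hv
      omega
    obtain ⟨q, hqdef⟩ : ∃ q, q = ∏ i, d i := ⟨_, rfl⟩
    have hq0 : 1 ≤ q := by
      rw [hqdef]
      have h1 : 0 < ∏ i, d i := Finset.prod_pos fun i _ => hd i
      omega
    obtain ⟨ω, hω0, hω1, hω2⟩ := hsec hw B L ((r.factorial * B ^ r).factorial) q hB1 hB2 hL
      (by omega) (fun j => by
        rw [hLdef]
        exact Finset.dvd_prod_of_mem m (Finset.mem_univ j))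
      (Nat.factorial_pos _) (fun i hi hi2 => Nat.dvd_factorial hi hi2) hq0 (fun i => by
        rw [hqdef]
        exact Finset.dvd_prod_of_mem d (Finset.mem_univ i))
    refine ⟨q * (r.factorial * B ^ r).factorial, 0, ω, fun i => i.elim0, fun i => i.elim0,
      Nat.mul_pos hq0 (Nat.factorial_pos _), hω0, hω1, fun i => i.elim0,
      fun P hP α v hmu hlog D hD => ?_⟩
    rcases hω2 P hP α v hmu hlog D hD with h1 | ⟨t, ht, -, hle⟩
    · exact Or.inl h1
    · right
      rw [Finset.mem_singleton] at ht
      subst ht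
      rw [P.ord_one] at hle
      rw [Finset.univ_eq_empty, Finset.sum_empty, add_zero]
      push_cast at hle ⊢
      rw [mul_zero, zero_sub] at hle
      linarith
  refine ⟨⟨hineq, fun h => psef_of_reff (hreff h)⟩, ⟨fun h => hreff (hineq h), psef_of_reff⟩,
    fun B L D q hB1 hB2 hL hLB hmL hD hDd hq0 hq hps =>
      hsec (hineq hps) B L D q hB1 hB2 hL hLB hmL hD hDd hq0 hq⟩

end Pool.Agent.Results.MP_66b48b_ag.RealToroidalPairs
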