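import Pool.Agent.Y191.DimGe
import Pool.Agent.Q298.GS.Tow

/-!
# Non-vanishing for pairs fibred in moving log canonical arrangements over towers of linear systems

Let `(X, Δ)` be a projective pair (for instance log canonical), `Δ` a `ℚ`-divisor, let `X ⇢ Z` be a
dominant rational map to a projective manifold of dimension `b`, otherwise arbitrary, and let
`|V_1|, ..., |V_t|` be linear systems on `X` without fixed components. Let `Y_j` be the image of the
rational map of `X` to the product of `Z` and of the first `j` projective spaces, a variety of the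
dimension `b + d_1 + ... + d_j` with `d_j ≥ 1`; so `Y_0 = Z`. Let `V_j` be of dimension
`n_j = d_j + k_j`. Suppose:

* (position) for each `j`, the images of the general fibres of `X ⇢ Y_{j-1}` (of the Stein
  factorization) in the projective space of `V_j` are nondegenerate;
* (the members) `V_j` is spanned by finitely many members `D_i` of `|V_j|`, in arbitrary position. Let
  `p_j` be the number of the components of this configuration: `V_j` is the direct sum of `p_j`
  nonzero subspaces such that each `D_i` belongs to one of them, its component, and there is no such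
  decomposition into `p_j + 1` subspaces. At every prime divisor `P` of `X` which is a component of
  some `D_i`, there are two members of one component of the configuration whose multiplicities at `P`
  differ by at least `σ_j (1 - Δ_j,P)`, where the `Δ_j` are effective with `∑ Δ_j ≤ Δ` (so `Δ_j = 0`
  if `Δ = 0`). Let `R_j = n_j + 3 - p_j`, or `R_j = n_j + 1` if `p_j = 1` and there are at least
  `n_j + 3` different members. Then either `2 σ_j ≥ R_j (k_j + 1) (k_j + 2)`, and `κ_j = 0`, or
  `2 σ_j > R_j (k_j + 1) (k_j + 2)`, and `κ_j = d_j + 1 - p_j ≥ 0`;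
* (the fibres) let `Y = Y_t`. There is a correspondence between `X` and a relative product of
  projective spaces:
  a variety `X'` with a generically finite map `X' ⇢ X` (any finite extension `K'` of the function
  field `K`, ramified anywhere) and a generically finite map over `Y` of `X'` to
  `Y' × P^{r_1} × ... × P^{r_c}`, `r_j ≥ 1`, `Y'` finite over `Y`, and in each `P^{r_j}` there are
  any hyperplanes `A j i = 0` which move with the point of `Y'`, with weights `w j i` in `[0, 1]`
  such that the arrangement is log canonical: the sum of the weights of hyperplanes with a common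
  point is at most the codimension of their intersection. If `Q` is a place of `K'` over a prime
  divisor `P` of `X` which dominates `Y`, with ramification index `ε`, and `e j i` are the
  multiplicities of the hyperplanes at `Q`, not all zero, then `ε (1 - Δ_P)` is at most
  `∑ (mx_j - ∑ w j i e j i)`, where `mx_j` is the greatest sum of `r_j + 1` of the `e j i` whose
  hyperplanes have no common point (`ε (1 - Δ_P) ≤ 1`, if all `e j i` are zero); and if `Q` is a place
  of `K'` over a prime divisor of `P^{r_1} × ... × P^{r_c}` over `Y`, with ramification index `ρ`, and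
  with ramification index `ε` over the place `P` of `K`, then `ρ - ε α ≤ ∑ w j i e j i`, where `α` is
  the log discrepancy of `(X, Δ)` along `P` (it is `1 - Δ_P` if `P` is a prime divisor of `X`).

If `κ(Z) ≥ z ≥ 0` then `K_X + Δ` is pseudo-effective if and only if it is `ℚ`-effective, if and only
if `∑ i, w j i ≥ r_j + 1` for all `j`, and then `κ(K_X + Δ) ≥ z + (κ_1 + ... + κ_t) + big`, where
`big` is the sum of the `r_j` with `∑ i, w j i > r_j + 1`. If `∑ i, w j i < r_j + 1` for some `j`, then
`κ(K_X + Δ) = ν(K_X + Δ) = -∞`.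

The case of equality `2 σ_j = R_j (k_j + 1) (k_j + 2)` is the case in which the orbifold base of `V_j`
may be of Calabi-Yau type, and then `κ_j = 0`. For instance `d_j = 1`, `k_j = 0`: three members of a
pencil whose components have the multiplicities at least `3`, or four members with multiplicities at
least `2`. In our `MP_5ff3c6_ag.SeveralSystemsArrangements` (abundance) `Z` is a point, the inequality
is strict and `p_j = 1`, so that the orbifold base is of general type. In
`MP_bc213e_ag.CorrespondencePairsNonvanishing` (a starting file) there is one linear system, with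
hyperplanes in general position which impose independent conditions, and `Z` is a point.

The language and the definitions of `Pool.Agent.Y172` are used: `X` is given by the homogeneous
coordinates `y` of its generic point, with values in the function field `K` of `X`; the prime divisors
of `X` are places `P` of `K`, `P.ord` is the order along `P`. A linear system is given by a finite
dimensional space `V` of rational functions: if `a` is the minimum of the orders at `P` of the members
of `V` then the multiplicity of `P` in the divisor of the system which is given by `f ∈ V` is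
`P.ord f - a`. `kodairaDim` and `numericalDim` are the literal definitions of the Kodaira dimension
and of the numerical dimension of `K_X + Δ`, the latter with respect to any effective divisor `A`; it
is `-∞` for all `A` if and only if `K_X + Δ` is not pseudo-effective. `acl ℂ S` is the field of the
elements which are algebraic over `ℂ(S)`.

Proof. The forms along the fibres of `X ⇢ Y` are those of `Pool.Agent.Y191.lc_low`. For `j = t, ..., 1`
the forms along the fibres of `X ⇢ Y_j` are multiplied with the generalised Wronskians of `V_j` with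
respect to vector fields which are tangent to the fibres of `X ⇢ Y_{j-1}`; these do not vanish, as the
members are linearly independent over the algebraic closure of the function field of `Y_{j-1}`, and
the products are forms along the fibres of `X ⇢ Y_{j-1}` with the right orders at all prime divisors
of `X`, including the vertical ones (`Pool.Agent.Q298.GS.stageG`); at last they are multiplied with
the forms of `Z` (`Pool.Agent.Q298.MX.pluri_stage`). The upper bound is `Pool.Agent.Y191.lc_ab`.
-/

set_option autoImplicit false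

open FF Pool.Agent.W602.GT Pool.Agent.Y172 Pool.Agent.Y191

namespace Pool.Agent.Results.MP_66b48b_ag.TowersOfLinearSystems

section

variable {K : Type} [Field K] [Algebra ℂ K] {N : ℕ}

/-- `(X, Δ)` is a projective pair of dimension `n`: `X` is normal, with generic point `y`, and `Δ` is
an effective `ℚ`-divisor. -/
def IsPair (y : Fin (N + 1) → K) (n : ℕ) (Δ : Place ℂ K → ℚ) : Prop :=
  NormalModel y ∧ Algebra.trdeg ℂ K = n ∧ Effective y Δ

/-- The function field of the image `Y_j` of `X` under the map to `Z`, with the function field `B`,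
and the first `j` linear systems: the field which is generated by `B` and by the quotients of the
members of each of them. -/
noncomputable def ImageField (B : IntermediateField ℂ K) {t : ℕ} (V : Fin t → Submodule ℂ K) (j : ℕ) :
    IntermediateField ℂ K :=
  B ⊔ IntermediateField.adjoin ℂ
    {y : K | ∃ i : Fin t, (i : ℕ) < j ∧ ∃ f ∈ V i, ∃ g ∈ V i, y = f / g}

/-- `γ` is a decomposition of the configuration of the members `φ i` of `V` into `p` components: `V`
has a basis of `n + 1` elements `x a`, divided into `p` nonempty groups (`x a` is in the group `g a`),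
such that `φ i` is in the subspace spanned by the elements of the group `γ i`. -/
def Decomposition (n : ℕ) {q p : ℕ} (V : Submodule ℂ K) (φ : Fin q → K) (γ : Fin q → Fin p) : Prop :=
  ∃ (x : Fin (n + 1) → K) (g : Fin (n + 1) → Fin p), LinearIndependent ℂ x ∧
    Submodule.span ℂ (Set.range x) = V ∧ Function.Surjective g ∧
    ∀ i, φ i ∈ Submodule.span ℂ (x '' {a | g a = γ i})

/-- There are `r` members `φ i` of which no two are proportional. -/
def Different (r : ℕ) {q : ℕ} (φ : Fin q → K) : Prop :=
  ∃ τ : Fin r → Fin q, ∀ i j, i ≠ j → ∀ t : ℂ, φ (τ i) ≠ t • φ (τ j)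

/-- The condition on the multiplicities: if the prime divisor `P` of `X` is a component of one of the
divisors `D i` (the order of `φ i` at `P` is not the minimum `a` of the orders of the members of
`V`), then there are two divisors `D i`, `D i'` of the same component of the configuration whose
multiplicities at `P` differ by at least `σ (1 - Δ_P)`. -/
def Multiplicities (y : Fin (N + 1) → K) (Δ : Place ℂ K → ℚ) {q p : ℕ} (V : Submodule ℂ K)
    (φ : Fin q → K) (γ : Fin q → Fin p) (σ : ℚ) : Prop :=
  ∀ P, IsPrimeDivisor y P → ∀ a : ℤ, (∀ f ∈ V, f = 0 ∨ a ≤ P.ord f) →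
    (∃ f ∈ V, f ≠ 0 ∧ P.ord f = a) → (∃ i, P.ord (φ i) ≠ a) →
    ∃ i i', γ i' = γ i ∧ σ * (1 - Δ P) ≤ ((P.ord (φ i) - P.ord (φ i') : ℤ) : ℚ)

/-- The hypotheses on the linear systems `V i` on the pair `(X, Δ)` with a rational map to `Z`, a
variety of dimension `b` with the function field `B`. The dimension of `Y_j` is the sum of `b` and of
the `d i` with `i < j`, `V i` has the dimension `d i + k i` as a linear system and, by
`nondegenerate`, this remains true for the space which it spans over the algebraic closure of the
function field of `Y_i`, the image under the map to `Z` and the previous linear systems. -/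
structure LinearSystems (y : Fin (N + 1) → K) (Δ : Place ℂ K → ℚ) (B : IntermediateField ℂ K)
    (b : ℕ) {t : ℕ} (d k κ : Fin t → ℕ) (V : Fin t → Submodule ℂ K) : Prop where
  pos : ∀ i, 1 ≤ d i
  dim : ∀ j ≤ t, Algebra.trdeg ℂ (ImageField B V j) =
    (b + ∑ i ∈ Finset.univ.filter (fun i : Fin t => (i : ℕ) < j), d i : ℕ)
  nondegenerate : ∀ i : Fin t, Module.finrank (acl ℂ (ImageField B V i : Set K))
    (Submodule.span (acl ℂ (ImageField B V i : Set K)) (V i : Set K)) = d i + k i + 1
  members : ∃ Δ' : Fin t → Place ℂ K → ℚ,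
    (∀ P, IsPrimeDivisor y P → (∀ i, 0 ≤ Δ' i P) ∧ ∑ i, Δ' i P ≤ Δ P) ∧
    ∀ i, ∃ (q p : ℕ) (φ : Fin q → K) (γ : Fin q → Fin p) (R : ℕ) (σ : ℚ), (∀ j, φ j ≠ 0) ∧
      Submodule.span ℂ (Set.range φ) = V i ∧ Decomposition (d i + k i) (V i) φ γ ∧
      (∀ γ' : Fin q → Fin (p + 1), ¬ Decomposition (d i + k i) (V i) φ γ') ∧
      (R + p = d i + k i + 3 ∨ (p = 1 ∧ Different (d i + k i + 3) φ ∧ R = d i + k i + 1)) ∧
      Multiplicities y (Δ' i) (V i) φ γ σ ∧
      ((κ i = 0 ∧ (R * ((k i + 1) * (k i + 2)) : ℚ) ≤ 2 * σ) ∨
        (κ i + p = d i + 1 ∧ (R * ((k i + 1) * (k i + 2)) : ℚ) < 2 * σ))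

/-- `κ (Z) ≥ z`, where `Z` has dimension `b` and the function field `B`: some positive multiple of the
canonical divisor of a smooth projective model of `Z` has sections (pluricanonical forms which are
regular at all divisorial places) with `z` algebraically independent ratios. -/
def BaseKodairaGe (B : IntermediateField ℂ K) (b z : ℕ) : Prop :=
  ∃ m : ℕ, 0 < m ∧ ∃ η : Fin (z + 1) → (Fin b → Derivation ℂ B B) → B,
    (∀ l, IsPluri m (η l) ∧ ∀ P : Place ℂ B, Divisorial b P →
      ∀ D : Fin b → Derivation ℂ B B, (∀ i, DerReg P (D i)) → P.Reg (η l D)) ∧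
    ∃ D, η 0 D ≠ 0 ∧ AlgebraicIndependent ℂ (fun i : Fin z => η i.succ D / η 0 D)

/-- There is a finite extension `K'` of `K`, and the `u ⟨j, k⟩` are the affine coordinates of a
generically finite map, over the variety with the function field `L`, of a variety with the function
field `K'` to a product of projective spaces of dimensions `r j ≥ 1`; `A j i` are the coefficients of
hyperplanes, algebraic over `L`, with weights `w j i` in `[0, 1]` such that the arrangement is log
canonical (`LcArr`). The pull back of `K_X + Δ` to `K'` is compared with the pull back of the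
canonical divisor of the relative product plus `∑ w j i (A j i = 0)` at the places over the prime
divisors of `X` which are trivial on `L` (`LcHor`) and at the places over the prime divisors of the
product (`Cor`). -/
def Fibres (y : Fin (N + 1) → K) (n : ℕ) (Δ : Place ℂ K → ℚ) (L : IntermediateField ℂ K) {c : ℕ}
    (r s : Fin c → ℕ) (w : ∀ j, Fin (s j) → ℚ) : Prop :=
  (∀ j, 1 ≤ r j ∧ ∀ i, 0 ≤ w j i ∧ w j i ≤ 1) ∧
  ∃ (K' : Type) (_ : Field K') (_ : Algebra ℂ K') (_ : Algebra K K') (_ : IsScalarTower ℂ K K')
    (_ : FiniteDimensional K K') (A : ∀ j, Fin (s j) → Fin (r j + 1) → K')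
    (u : (Σ j, Fin (r j)) → K'),
    LcArr (upF K' L) A w ∧ IsTranscendenceBasis (upF K' L) u ∧
    LcHor L A u w {P | IsPrimeDivisor y P} (fun P => (Δ P : ℝ)) ∧
    Cor y n Δ (upF K' L) A u w

/-- the sum of the dimensions `r j` for which the sum of the weights is greater than `r j + 1` -/
def big {c : ℕ} (r s : Fin c → ℕ) (w : ∀ j, Fin (s j) → ℚ) : ℕ :=
  ∑ j, if (r j + 1 : ℚ) < ∑ i, w j i then r j else 0

/-- If the sums of the weights are at least `r j + 1` then the Kodaira dimension of `K_X + Δ` is at
least `a + big`; otherwise it is `-∞`, and `K_X + Δ` is not pseudo-effective: its numerical dimension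
with respect to any effective divisor `A` is `-∞`. -/
def Nonvanishing (y : Fin (N + 1) → K) (n a : ℕ) (Δ : Place ℂ K → ℚ) {c : ℕ} (r s : Fin c → ℕ)
    (w : ∀ j, Fin (s j) → ℚ) : Prop :=
  ((∀ j, (r j + 1 : ℚ) ≤ ∑ i, w j i) →
    ((a + big r s w : ℕ) : WithBot ℕ) ≤ kodairaDim y n Δ) ∧
  ((∃ j, ∑ i, w j i < (r j + 1 : ℚ)) → kodairaDim y n Δ = ⊥ ∧
    ∀ A, Effective y A → numericalDim y n Δ A = ⊥)

end

theorem exists_idx {c : ℕ} (r q : Fin c → ℕ) (w : ∀ j, Fin (q j) → ℚ) :
    ∃ κ : Fin (big r q w) → Σ j, Fin (r j), Function.Injective κ ∧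
      ∀ i, (r (κ i).1 + 1 : ℚ) < ∑ i', w (κ i).1 i' := by
  classical
  have h1 : Fintype.card {x : Σ j, Fin (r j) // (r x.1 + 1 : ℚ) < ∑ i, w x.1 i} = big r q w := by
    rw [Fintype.card_subtype, Finset.card_filter, Fintype.sum_sigma]
    refine Finset.sum_congr rfl fun j _ => ?_
    change ∑ _k : Fin (r j), (if (r j + 1 : ℚ) < ∑ i, w j i then 1 else 0) = _
    rw [Finset.sum_const, Finset.card_univ, Fintype.card_fin, smul_eq_mul, mul_ite, mul_one,
      mul_zero]
  let φ := Fintype.equivFinOfCardEq h1
  exact ⟨fun i => (φ.symm i : Σ j, Fin (r j)), fun a b hab => φ.symm.injective (Subtype.ext hab),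
    fun i => (φ.symm i).2⟩

/-- **Non-vanishing.** Let `(X, Δ)` be a projective pair with generic point `y`, of dimension
`b + (d + ∑ j, r j)`, where `d` is the sum of the `d i`; let the subfield `B` of the function field be
the function field of a variety `Z` of dimension `b` with `κ (Z) ≥ z`, and `V i` linear systems on
`X` with `LinearSystems` relative to `Z`. Let the fibres of `X` over the image `Y` of `X` under the
map to `Z` and the `V i` be as in `Fibres`. If `r j + 1 ≤ ∑ i, w j i` for all `j` then the Kodaira
dimension of `K_X + Δ` is at least `z` plus the sum of the `κ i` plus the sum of the `r j` with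
`r j + 1 < ∑ i, w j i`; otherwise it is `-∞`, and `K_X + Δ` is not pseudo-effective. -/
theorem result (b z t N c : ℕ) (d k κ : Fin t → ℕ) (r s : Fin c → ℕ) (K : Type) [Field K]
    [Algebra ℂ K] (y : Fin (N + 1) → K) (Δ : Place ℂ K → ℚ)
    (hy : IsPair y (b + (∑ i, d i + ∑ j, r j)) Δ) (B : IntermediateField ℂ K)
    (hB : BaseKodairaGe B b z) (V : Fin t → Submodule ℂ K)
    (hV : LinearSystems y Δ B b d k κ V) (w : ∀ j, Fin (s j) → ℚ)
    (hF : Fibres y (b + (∑ i, d i + ∑ j, r j)) Δ (ImageField B V t) r s w) :
    Nonvanishing y (b + (∑ i, d i + ∑ j, r j)) (z + ∑ i, κ i) Δ r s w := by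
  classical
  obtain ⟨hw, K', _, _, _, _, _, A, u, hA, hu, hH, hC⟩ := hF
  refine ⟨fun hws => ?_, (lc_ab hy.1 hy.2.1 hy.2.2 hA.1 hu (fun j => (hw j).1)
    (fun j i => ((hw j).2 i).1) (fun j i => ((hw j).2 i).2) hC).1⟩
  have hKe0 : Algebra.EssFiniteType ℂ K := hy.1.ess
  have hBe : Algebra.EssFiniteType ℂ B := Pool.Agent.Q298.EF.ess_sub (K := K)
  obtain ⟨Δ', hΔ', hmem⟩ := hV.members
  have htr : Algebra.trdeg ℂ (ImageField B V t) = (b + ∑ i, d i : ℕ) := by
    have h1 := hV.dim t le_rfl
    rwa [Pool.Agent.Q298.JS.sum_filter_all] at h1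
  obtain ⟨κ', hκ, hκs⟩ := exists_idx r s w
  refine lc_nv hy.1 hy.2.1 hy.2.2 hA.1 hu (fun j => (hw j).1)
    (fun j i => ((hw j).2 i).1) (fun j i => ((hw j).2 i).2) hC hws (by omega) ?_
  have hKe : Algebra.trdeg (ImageField B V t) K = (∑ j, r j : ℕ) :=
    Pool.Agent.Q298.JS.trdeg_over htr (by rw [hy.2.1, add_assoc])
  -- the boundary along the divisors which dominate the base
  let δ₂ : Place ℂ K → ℝ := fun P =>
    if ∀ f ∈ ImageField B V t, f ≠ 0 → P.ord f = 0 then (Δ P : ℝ) else 0
  let δ₁ : Fin t → Place ℂ K → ℝ := fun i P =>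
    if ∀ f ∈ ImageField B V t, f ≠ 0 → P.ord f = 0 then 0 else (Δ' i P : ℝ)
  have hΔ0 : ∀ P, IsPrimeDivisor y P → (0 : ℝ) ≤ Δ P := fun P hP => by
    exact_mod_cast hy.2.2.1 P hP
  have hδ₂ : ∀ P ∈ {P | IsPrimeDivisor y P}, 0 ≤ δ₂ P := by
    intro P hP
    change (0 : ℝ) ≤ if ∀ f ∈ ImageField B V t, f ≠ 0 → P.ord f = 0 then (Δ P : ℝ) else 0
    split_ifs
    · exact hΔ0 P hP
    · exact le_rfl
  have hH' : LcHor (ImageField B V t) A u w {P | IsPrimeDivisor y P} δ₂ := by
    intro P hP htr Q ε hQ c' e' ho
    have h1 := hH P hP htr Q ε hQ c' e' ho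
    have h2 : δ₂ P = Δ P := if_pos htr
    rw [h2]
    exact h1
  have hS : Pool.Agent.Q298.GS.SysG (b + (∑ i, d i + ∑ j, r j)) {P | IsPrimeDivisor y P} B b d k κ V
      δ₁ := by
    refine ⟨hV.pos, hV.dim, hV.nondegenerate, fun i => ?_⟩
    obtain ⟨q, p, φ, γ, R, σ, h1, h2, h3, h4, h5, h6, h7⟩ := hmem i
    refine ⟨q, p, φ, γ, R, σ, h1, h2, h3, h4, h5, ?_, fun P hP _ a ha hb hc => ?_⟩
    · rcases h7 with ⟨h8, h9⟩ | ⟨h8, h9⟩
      · exact Or.inl ⟨h8, by exact_mod_cast h9⟩
      · exact Or.inr ⟨h8, by exact_mod_cast h9⟩
    · have h7 : δ₁ i P = Δ' i P := by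
        refine if_neg fun htr => ?_
        obtain ⟨j, hj⟩ := hc
        obtain ⟨f, hf, hf0, hfa⟩ := hb
        have hfi : φ j ∈ V i := h2 ▸ Submodule.subset_span ⟨j, rfl⟩
        have h8 : φ j / f ∈ ImageField B V t := by
          have h8 : IntermediateField.adjoin ℂ
              {y : K | ∃ i : Fin t, (i : ℕ) < t ∧ ∃ f ∈ V i, ∃ g ∈ V i, y = f / g} ≤
              ImageField B V t := le_sup_right
          exact h8 (IntermediateField.subset_adjoin ℂ _ ⟨i, i.2, φ j, hfi, f, hf, rfl⟩)
        have h9 := htr _ h8 (div_ne_zero (h1 j) hf0)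
        rw [P.ord_div (h1 j) hf0] at h9
        exact hj (by omega)
      obtain ⟨j, j', hjj, hj⟩ := h6 P hP a ha hb hc
      refine ⟨j, j', hjj, ?_⟩
      rw [h7]
      exact_mod_cast hj
  obtain ⟨M, hM, θ, hθ, hne⟩ := lc_low (N := b + (∑ i, d i + ∑ j, r j)) hKe hA finSigmaFinEquiv hu
    (fun j i => ((hw j).2 i).1) hws hκ hκs hδ₂ hH'
  obtain ⟨m₀, hm₀, η, hη, hne₀⟩ := hB
  have h10 := hS.iitaka hy.2.1 (δ₂ := δ₂) (δ := fun P => (Δ P : ℝ)) ?_ ?_ ⟨M, hM, θ, hθ, hne⟩ hm₀ hη
    hne₀
  · rw [add_assoc]
    exact h10
  · intro i P hP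
    change (0 : ℝ) ≤ if ∀ f ∈ ImageField B V t, f ≠ 0 → P.ord f = 0 then 0 else (Δ' i P : ℝ)
    split_ifs
    · exact le_rfl
    · exact_mod_cast (hΔ' P hP).1 i
  · intro P hP
    change (∑ i, if ∀ f ∈ ImageField B V t, f ≠ 0 → P.ord f = 0 then 0 else (Δ' i P : ℝ)) +
      (if ∀ f ∈ ImageField B V t, f ≠ 0 → P.ord f = 0 then (Δ P : ℝ) else 0) ≤ (Δ P : ℝ)
    split_ifs
    · rw [Finset.sum_const_zero, zero_add]
    · rw [add_zero]
      exact_mod_cast (hΔ' P hP).2

end Pool.Agent.Results.MP_66b48b_ag.TowersOfLinearSystems
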